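import Pool.Agent.Q85.AXT.Fin
import Pool.Agent.Q224.VL.Ex
import Pool.Agent.Q176.AXT.Thr
import Pool.Agent.Q176.AXT.Off

/-!
Axisymmetric Navier-Stokes flows with swirl: the circulation and the large vorticities at a
blow-up.

`V` is `ℝ³` with the maximum norm, `sg x = x₀² + x₁²` the square of the distance `r` to the axis,
`circ v = x₀ v₁ - x₁ v₀` the circulation `Γ = r u_θ`, `vort v` the vorticity, `om v` and `len` are
Euclidean lengths. For an axisymmetric function `g` one has `ω · ∇g = J / r` with the Jacobian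
`J = ∂_r Γ ∂_z g - ∂_z Γ ∂_r g`.
-/

open MeasureTheory Set
open scoped ContDiff
open H459R3.NS Pool.Agent.W268.NS Pool.Agent.Q67.VD Pool.Agent.TH305.AX
open Pool.Agent.Q85.CL (Sing Blow WSl)
open Pool.Agent.Q85.VL (Thr)

set_option autoImplicit false

namespace Pool.Agent.Results.MP_09540e_an.CirculationTransversal

/-- `g` is continuously differentiable and `|∇g| ≤ 1`. -/
def Slope (g : V → ℝ) : Prop := ContDiff ℝ 1 g ∧ ∀ y z, |g y - g z| ≤ len (y - z)

/-- For all `T₀ ∈ [0, T)`, `R, ε > 0`, all real `M` and all thresholds `m` there is ONE time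
`t ∈ (T₀, T)` such that `|ω(t, x)| > m(t, x)` for some `x` with `‖x - a‖ ≤ R` and such that for
EVERY function `g` with `|∇g| ≤ 1` there is a point `y` with `‖y - a‖ ≤ R`, `|ω(t, y)| > M` and
`|∇g(y) · ω(t, y)| < ε |ω(t, y)|`. If `g` is axisymmetric the last quantity is `|J| / r`. -/
def NoTransversal (T : ℝ) (u : ℝ → V → V) (a : V) : Prop :=
  ∀ (T₀ R ε M : ℝ) (m : ℝ → V → ℝ), 0 ≤ T₀ → T₀ < T → 0 < R → 0 < ε → Thr T₀ T a R m →
    ∃ t ∈ Ioo T₀ T, (∃ x, ‖x - a‖ ≤ R ∧ m t x < om (u t) x) ∧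
      ∀ g : V → ℝ, Slope g → ∃ y, ‖y - a‖ ≤ R ∧ M < om (u t) y ∧
        |fderiv ℝ g y (vort (u t) y)| < ε * om (u t) y ∧
        ((∀ θ z, g (rot θ z) = g z) →
          |(y 0 * pd 0 (circ (u t)) y + y 1 * pd 1 (circ (u t)) y) * pd 2 g y
            - pd 2 (circ (u t)) y * (y 0 * pd 0 g y + y 1 * pd 1 g y)|
          ≤ ε * (sg y * om (u t) y))

/-- `|ω| ≤ M / (ρ² (1 + |log ρ|) ^ q)` at the distance at most `R` from the axis, where
`ρ = r + √(T - t)` is the parabolic distance from the axis at the time `T`. -/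
def Below (T t R M q : ℝ) (v : V → V) : Prop :=
  ∀ y, sg y ≤ R ^ 2 → om v y ≤ M / ((√(sg y) + √(T - t)) ^ 2 *
    (1 + |Real.log (√(sg y) + √(T - t))|) ^ q)

/-- Let `ν > 0` and let `u` be a smooth axisymmetric solution (with swirl) of the Navier-Stokes
equations without force and with viscosity `ν` on `(0, T) × ℝ³`, with bounded energy, finite
dissipation and locally integrable pressure.

(a) If `u` is unbounded near the time `T` it has a singular point at the time `T`.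

(b) All the singular points are on the axis, and `NoTransversal` holds at each of them.

(c) Let `T₀ ∈ [0, T)`, `κ, R > 0`, `q > 2` and `M` real. If at each time `t ∈ (T₀, T)` the vorticity
satisfies `Below` near the axis or there is a function `g` (depending on the time) with `|∇g| ≤ 1`
and `|∇g · ω| ≥ κ |ω|` at all the points with `r ≤ R` and `|ω| > M`, then `u` is bounded near `T`.

(d) The same if the second condition is `r |∂_r Γ| ≥ κ r² |ω|` at all the points with `0 < r ≤ R`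
and `|ω| > M`.

(e) Thresholds are the functions `M / (ρ² (1 + |log ρ|) ^ q)` of (c) and, with the parabolic distance
`ρ` from the point `(T, a)`, the functions `M / (ρ (1 + |log ρ|))²`. -/
theorem result (ν T E : ℝ) (u : ℝ → V → V) (p : ℝ → V → ℝ) (hν : 0 < ν) (h : WSl ν T E u p)
    (hax : ∀ t ∈ Ioo 0 T, Axi (u t)) :
    (Blow T u → ∃ a, Sing T u a) ∧
    (∀ a, Sing T u a → sg a = 0 ∧ NoTransversal T u a) ∧
    (∀ T₀ κ R M q : ℝ, 0 ≤ T₀ → T₀ < T → 0 < κ → 0 < R → 2 < q →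
      (∀ t ∈ Ioo T₀ T, Below T t R M q (u t) ∨ ∃ g : V → ℝ, Slope g ∧
        ∀ y, sg y ≤ R ^ 2 → M < om (u t) y →
          κ * om (u t) y ≤ |fderiv ℝ g y (vort (u t) y)|) → ¬ Blow T u) ∧
    (∀ T₀ κ R M q : ℝ, 0 ≤ T₀ → T₀ < T → 0 < κ → 0 < R → 2 < q →
      (∀ t ∈ Ioo T₀ T, Below T t R M q (u t) ∨
        ∀ y, 0 < sg y → sg y ≤ R ^ 2 → M < om (u t) y → κ * (sg y * om (u t) y)
          ≤ |y 0 * pd 0 (circ (u t)) y + y 1 * pd 1 (circ (u t)) y|) → ¬ Blow T u) ∧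
    ∀ (T₀ : ℝ) (a : V) (R M : ℝ), 0 ≤ M →
      (∀ q : ℝ, 2 < q → Thr T₀ T a R (fun t y => M / ((√(sg y) + √(T - t)) ^ 2 *
        (1 + |Real.log (√(sg y) + √(T - t))|) ^ q))) ∧
      Thr T₀ T a R (fun t y =>
        M / ((‖y - a‖ + √(T - t)) * (1 + |Real.log (‖y - a‖ + √(T - t))|)) ^ 2) := by
  refine ⟨fun hB => Q85.CL.sing_whole Q95.CL.far Q285.CL.wsc hν h hB, fun a ha =>
    ⟨Q176.AXT.stmOff ν T E u p hν h hax a ha, fun T₀ R ε M m hT0 hT₀ hR hε hm => ?_⟩,
    fun T₀ κ R M q hT0 hT₀ hκ hR hq hc => Q85.AXT.crit Q176.AXT.stmOff Q176.AXT.stmThr hν h hax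
      hT0 hT₀ hκ hR hq fun t ht => (hc t ht).imp id fun ⟨g, hg, hy⟩ => ⟨g, hg.1, hg.2, hy⟩,
    fun T₀ κ R M q hT0 hT₀ hκ hR hq hc => Q85.AXT.crit_circ Q176.AXT.stmOff Q176.AXT.stmThr hν h
      hax hT0 hT₀ hκ hR hq hc,
    fun T₀ a R M hM => ⟨fun q hq => Q176.AXT.stmThr T₀ T a R M q hM hq,
      Q224.VL.stmEx T₀ T a R M hM⟩⟩
  obtain ⟨t, ht, hx, hg⟩ := Q85.AXT.sing_G (M := M) hν (Q85.CL.whole_D h a)
    (Metric.mem_ball_self (by norm_num)) ha hT0 hT₀ hε hR hm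
  refine ⟨t, ht, hx, fun g hgs => ?_⟩
  obtain ⟨y, hy, hyM, hye⟩ := hg g hgs.1 hgs.2
  refine ⟨y, hy, hyM, hye, fun hga => ?_⟩
  have ht0 : t ∈ Ioo 0 T := ⟨hT0.trans_lt ht.1, ht.2⟩
  have hsm := Q85.AXT.slice_sm h ht0
  have hs0 : 0 ≤ sg y := by unfold sg; positivity
  rw [← (Q85.AXT.stmId (u t) y (hsm.differentiable (by norm_num) y) (hax t ht0)).2.2 g
    (hgs.1.differentiable (by norm_num) y) hga, abs_mul, abs_of_nonneg hs0]
  calc sg y * |fderiv ℝ g y (vort (u t) y)| ≤ sg y * (ε * om (u t) y) :=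
        mul_le_mul_of_nonneg_left hye.le hs0
    _ = ε * (sg y * om (u t) y) := by ring

end Pool.Agent.Results.MP_09540e_an.CirculationTransversal
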