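import Pool.Agent.Q62.NSL.Final
import Pool.Agent.Q176.AXT.Off
import Pool.Agent.Q95.CL.Far
import Pool.Agent.Q285.CL.WSc
import Pool.Agent.Q85.CL.Blow

/-!
The enstrophy near the axis of symmetry of an axisymmetric Navier-Stokes flow (with swirl) which
blows up, and the number of its singular points.

`V` is `ℝ³` with the maximum norm and the axis of symmetry is the third coordinate axis;
`sg x = x₀² + x₁²` is the square of the distance to the axis. The field `v` is axisymmetric
(`Axi v`) if `v (rot θ x) = rot θ (v x)` for all the rotations `rot θ` about the axis, and `vsq v`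
is the square of the Euclidean length of the curl of `v`. A point `a` is singular at the time `T`
(`Sing T u a`) if `u` is unbounded in every neighbourhood of `(T, a)`.

The singular points are on the axis. Each of them costs, in every neighbourhood and at every time
`t` close enough to `T`, the enstrophy `c ν ^ (3 / 2) / √(T - t)`, with an absolute constant `c`.
So a flow whose enstrophy in one cylinder around the axis is at most `M / √(T - t)`, for a sequence
of times `t` which tends to `T`, has at most `M / (c ν ^ (3 / 2))` singular points.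
-/

open MeasureTheory Set Filter Topology
open scoped ContDiff ENNReal
open H459R3.NS Pool.Agent.W268.NS
open Pool.Agent.Q85.CL (Sing Blow WSl)
open Pool.Agent.TH305.AX (sg rot Axi)
open Pool.Agent.Q62.NSL (vsq)

set_option autoImplicit false

namespace Pool.Agent.Results.MP_09540e_an.EnstrophyAtTheAxis

/-- The singular points of the local class. -/
theorem sing_to {T : ℝ} {u : ℝ → V → V} {x : V} (h : Sing T u x) : W221.NS.Sing T u x := by
  intro δ hδ B
  have hδ' : 0 < δ / 2 := by positivity
  obtain ⟨t, ht, htδ, y, hy, hB⟩ := h B (δ / 2) hδ'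
  refine ⟨t, ⟨by linarith, ht.2⟩, y, ?_, hB⟩
  rw [Metric.mem_ball, dist_eq_norm]
  linarith

theorem pd_zero (j : Fin 3) : pd j (fun _ : V => (0 : ℝ)) = fun _ => 0 := by
  funext x
  simp [pd]

theorem bd3_zero (O : Set V) : W221.NS.Bd3 0 O (fun _ => 0) := by
  intro x _ i
  have e : ∀ i : Fin 3, (fun y : V => (fun _ : V => (0 : V)) y i) = fun _ => (0 : ℝ) := fun i => rfl
  refine ⟨by simp, fun j => ?_, fun j k => ?_, fun j k l => ?_⟩
  · rw [e, pd_zero]; simp
  · rw [e, pd_zero, pd_zero]; simp
  · rw [e, pd_zero, pd_zero, pd_zero]; simp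

theorem fin_dis {T : ℝ} {Ω : Set V} {u : ℝ → V → V}
    (h : IntegrableOn (fun z : ℝ × V => W221.NS.gsq (u z.1) z.2) (Ioo 0 T ×ˢ Ω)) :
    ∫⁻ t in Ioo 0 T, ∫⁻ y in Ω, ENNReal.ofReal (W221.NS.gsq (u t) y) ≠ ⊤ := by
  have h1 : Integrable (fun z : ℝ × V => W221.NS.gsq (u z.1) z.2)
      ((volume.restrict (Ioo 0 T)).prod (volume.restrict Ω)) := by
    rw [Measure.prod_restrict]
    exact h
  have h2 : ∫⁻ z, ENNReal.ofReal (W221.NS.gsq (u z.1) z.2)
      ∂((volume.restrict (Ioo 0 T)).prod (volume.restrict Ω)) ≠ ⊤ := by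
    refine ne_of_lt ?_
    refine lt_of_le_of_lt ?_ h1.2
    refine lintegral_mono fun z => ?_
    exact Real.ofReal_le_enorm _
  rwa [lintegral_prod _ h1.1.aemeasurable.ennreal_ofReal] at h2

/-- A flow in the whole space belongs to the local class, `Ω = ℝ³`. -/
theorem osolF_whole {ν T E : ℝ} {u : ℝ → V → V} {p : ℝ → V → ℝ} (hE : 0 ≤ E)
    (h : WSl ν T E u p) : W221.NS.OSolF ν T (√E) 0 univ u p (fun _ _ => 0) where
  openO := isOpen_univ
  smooth_u := h.smooth_u
  smooth_p := h.smooth_p
  divfree := fun t ht x _ => h.divfree t ht x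
  momentum := fun t ht x _ i => by
    rw [h.momentum t ht x i]
    simp
  force := fun t _ => bd3_zero univ
  en_int := fun t ht => (h.en_int t ht).integrableOn
  en := fun t ht => by
    rw [Real.sq_sqrt hE, setIntegral_univ]
    exact h.en t ht

theorem nsq_nonneg' (v : V → V) (x : V) : 0 ≤ W221.NS.nsq v x :=
  Finset.sum_nonneg fun _ _ => sq_nonneg _

/-- There is an absolute constant `c > 0` with the following property. Let `(u, p)` be a smooth
axisymmetric solution (with swirl) of the Navier-Stokes equations on `(0, T) × ℝ³` without force,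
with viscosity `ν > 0`, energy at most `E`, finite dissipation and locally integrable pressure
(`WSl`). Then

(1) all the points which are singular at the time `T` are on the axis;

(2) if `S` is a finite set of singular points in an open set `U`, then the enstrophy in `U` is at
least `c ν ^ (3 / 2) |S| / √(T - t)` at all the times `t < T` close enough to `T`;

(3) if `u` is unbounded near the time `T` then, for all `R > 0`, the enstrophy in the cylinder with
radius `R` around the axis is at least `c ν ^ (3 / 2) / √(T - t)` at all these times;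

(4) if for some `R > 0` and `M` the enstrophy in this cylinder is at most `M / √(T - t)` for a
sequence of times `t < T` with limit `T`, then there are at most `M / (c ν ^ (3 / 2))` singular
points. -/
theorem result : ∃ c : ℝ, 0 < c ∧ ∀ (ν T E : ℝ) (u : ℝ → V → V) (p : ℝ → V → ℝ), 0 < ν → 0 < T →
    WSl ν T E u p → (∀ t ∈ Ioo 0 T, Axi (u t)) →
      (∀ a, Sing T u a → a 0 = 0 ∧ a 1 = 0) ∧
      (∀ (S : Finset V) (U : Set V), IsOpen U → (∀ a ∈ S, a ∈ U ∧ Sing T u a) →
        ∀ᶠ t in 𝓝[<] T, ENNReal.ofReal (c * ν ^ (3 / 2 : ℝ) * S.card / √(T - t)) ≤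
          ∫⁻ x in U, ENNReal.ofReal (vsq (u t) x)) ∧
      ∀ R : ℝ, 0 < R →
        (Blow T u → ∀ᶠ t in 𝓝[<] T, ENNReal.ofReal (c * ν ^ (3 / 2 : ℝ) / √(T - t)) ≤
          ∫⁻ x in {x | sg x < R ^ 2}, ENNReal.ofReal (vsq (u t) x)) ∧
        ∀ M : ℝ, 0 ≤ M → (∃ᶠ t in 𝓝[<] T, ∫⁻ x in {x | sg x < R ^ 2},
          ENNReal.ofReal (vsq (u t) x) ≤ ENNReal.ofReal (M / √(T - t))) →
            {a | Sing T u a}.Finite ∧ c * ν ^ (3 / 2 : ℝ) * {a | Sing T u a}.ncard ≤ M := by
  obtain ⟨c, hc, H⟩ := Pool.Agent.Q62.NSL.local_rate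
  refine ⟨c, hc, fun ν T E u p hν hT h hax => ?_⟩
  have hE : 0 ≤ E := by
    have h1 := h.en (T / 2) ⟨by positivity, by linarith⟩
    exact (integral_nonneg fun x => nsq_nonneg' _ x).trans h1
  have hA : ∀ a, Sing T u a → a 0 = 0 ∧ a 1 = 0 := by
    intro a ha
    have h1 : sg a = 0 := Pool.Agent.Q176.AXT.stmOff ν T E u p hν h hax a ha
    unfold sg at h1
    constructor <;> nlinarith [sq_nonneg (a 0), sq_nonneg (a 1)]
  have hL : ∀ (S : Finset V) (U : Set V), IsOpen U → (∀ a ∈ S, a ∈ U ∧ Sing T u a) →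
      ∀ᶠ t in 𝓝[<] T, ENNReal.ofReal (c * ν ^ (3 / 2 : ℝ) * S.card / √(T - t)) ≤
        ∫⁻ x in U, ENNReal.ofReal (vsq (u t) x) := by
    intro S U hU hS
    exact H ν T (√E) 0 univ u p _ hν hT (osolF_whole hE h) (fin_dis h.dis) U hU (subset_univ _) S
      fun x hx => ⟨(hS x hx).1, sing_to (hS x hx).2⟩
  have hopen : ∀ R : ℝ, IsOpen {x : V | sg x < R ^ 2} := by
    intro R
    refine isOpen_lt ?_ continuous_const
    unfold sg
    fun_prop
  have hmem : ∀ R : ℝ, 0 < R → ∀ a : V, Sing T u a → a ∈ {x : V | sg x < R ^ 2} := by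
    intro R hR a ha
    obtain ⟨h0, h1⟩ := hA a ha
    have h2 : 0 < R ^ 2 := by positivity
    show sg a < R ^ 2
    unfold sg
    rw [h0, h1]
    linarith
  refine ⟨hA, hL, fun R hR => ⟨?_, ?_⟩⟩
  · intro hB
    obtain ⟨a, ha⟩ := Q85.CL.sing_whole Q95.CL.far Q285.CL.wsc hν h hB
    have h1 := hL {a} {x | sg x < R ^ 2} (hopen R) (fun b hb => by
      rw [Finset.mem_singleton] at hb
      subst hb
      exact ⟨hmem R hR b ha, ha⟩)
    simpa using h1
  · intro M hM hf
    have hcν : 0 < c * ν ^ (3 / 2 : ℝ) := mul_pos hc (Real.rpow_pos_of_pos hν _)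
    have key : ∀ S : Finset V, (∀ a ∈ S, Sing T u a) → c * ν ^ (3 / 2 : ℝ) * S.card ≤ M := by
      intro S hS
      have h1 := hL S {x | sg x < R ^ 2} (hopen R) fun b hb => ⟨hmem R hR b (hS b hb), hS b hb⟩
      obtain ⟨t, h2, h3, h4⟩ := (hf.and_eventually (h1.and self_mem_nhdsWithin)).exists
      have h5 : 0 < √(T - t) := Real.sqrt_pos.2 (sub_pos.2 h4)
      have h6 := (ENNReal.ofReal_le_ofReal_iff (by positivity)).1 (h3.trans h2)
      rwa [div_le_div_iff_of_pos_right h5] at h6
    have hfin : {a | Sing T u a}.Finite := by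
      by_contra hinf
      obtain ⟨n, hn⟩ := exists_nat_gt (M / (c * ν ^ (3 / 2 : ℝ)))
      obtain ⟨S, hS, hSn⟩ := (show Set.Infinite {a | Sing T u a} from hinf).exists_subset_card_eq n
      have h1 := key S fun a ha => hS ha
      rw [hSn] at h1
      rw [div_lt_iff₀ hcν] at hn
      linarith
    refine ⟨hfin, ?_⟩
    have h1 := key hfin.toFinset fun a ha => by simpa using ha
    rwa [← Set.ncard_eq_toFinset_card _ hfin] at h1

end Pool.Agent.Results.MP_09540e_an.EnstrophyAtTheAxis
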