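import Pool.Agent.Q67.AXI.All

/-!
Inflow and swirl at the singular points of axisymmetric Navier-Stokes flows.

`V` is `ℝ³` with the maximum norm, the axis of symmetry is the third coordinate axis,
`sg x = x₀² + x₁²` is the square of the distance `ρ` to the axis, `circ v = x₀ v₁ - x₁ v₀` is the
circulation `Γ = ρ v_θ`, `rad v = x₀ v₀ + x₁ v₁` is `ρ v_ρ`, and `vort v` is the curl of `v`. The
field `v` is axisymmetric (`Axi v`) if `v (rot θ x) = rot θ (v x)` for all the rotations `rot θ`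
about the axis. A point `a` is singular at the time `T` (`Sing T u a`) if `u` is unbounded in every
neighbourhood of `(T, a)`.

Near a singular point `a` of the axis there are, at times arbitrarily close to `T` and arbitrarily
close to `a`, points with a circulation which is not small, `|Γ| > C λ ^ (-α)` for any given
`α > 3 / 2` and `C`, which are critical for it in the sense that the radial vorticity `ω_ρ` vanishes
and the axial vorticity has the sign of `Γ`, and at which moreover the inflow towards the axis is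
stronger than the one of a sink of strength `2 ν` (up to a logarithmic correction) plus the one of a
strain of rate `c₁ / (T - t) + B(t)`:
`ρ u_ρ < -2 ν + 2 (α + 1) ν / λ - (c₁ / (T - t) + B(t)) ρ²`, for any given `0 ≤ c₁ < 1 / 2` and any
given continuous integrable function `B`; here `λ = log ((ν (T - t)) ^ (2 c₁) / ρ²) > 0`, which is
`|log ρ²|` if `c₁ = 0`. There is no condition on the rate of the blow-up and none on the size of the
swirl.
-/

open MeasureTheory Set
open H459R3.NS Pool.Agent.W268.NS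
open Pool.Agent.Q85.CL (Sing Blow DSl WSl)
open Pool.Agent.TH305.AX (sg circ rot Axi)
open Pool.Agent.Q67.AXI (rad)

set_option autoImplicit false

namespace Pool.Agent.Results.MP_09540e_an.InflowAndSwirl

/-- For all functions `B`, continuous and integrable on `(0, T)`, all `0 ≤ c₁ < 1 / 2`,
`α > 3 / 2`, `C ≥ 0`, `T₀ < T` and `R > 0` there are a time `t` in `(T₀, T)`, `t > 0`, and a point
`x` with `‖x - a‖ ≤ R`, at the distance `ρ > 0` of the axis, `ρ² < (ν (T - t)) ^ (2 c₁)`, where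
`|Γ| > C λ ^ (-α)`, `ω_ρ = 0`, `Γ ω_z > 0` and
`ρ u_ρ < ν (-2 + 2 (α + 1) / λ) - (c₁ / (T - t) + B(t)) ρ²`, with
`λ = log ((ν (T - t)) ^ (2 c₁) / ρ²)`. -/
def InflowSwirl (ν T : ℝ) (u : ℝ → V → V) (a : V) : Prop :=
  ∀ (B : ℝ → ℝ) (c₁ α C T₀ R : ℝ), ContinuousOn B (Ioo 0 T) → IntegrableOn B (Ioo 0 T) →
    0 ≤ c₁ → c₁ < 1 / 2 → 3 / 2 < α → 0 ≤ C → T₀ < T → 0 < R →
      ∃ t ∈ Ioo 0 T, T₀ < t ∧ ∃ x : V, ‖x - a‖ ≤ R ∧ 0 < sg x ∧
        sg x < (ν * (T - t)) ^ (2 * c₁) ∧
        C * Real.log ((ν * (T - t)) ^ (2 * c₁) / sg x) ^ (-α) < |circ (u t) x| ∧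
        rad (vort (u t)) x = 0 ∧ 0 < circ (u t) x * vort (u t) x 2 ∧
        rad (u t) x < ν * (-2 + 2 * (α + 1) / Real.log ((ν * (T - t)) ^ (2 * c₁) / sg x))
          - (c₁ / (T - t) + B t) * sg x

/-- Let `ν > 0`.

(a) Let `(u, p)` be a smooth solution of the Navier-Stokes equations in `(0, T) × Ω`, `Ω` open,
without force and with viscosity `ν`, with finite energy, finite dissipation and integrable
pressure (`DSl`), and axisymmetric: `u(t, rot θ x) = rot θ (u(t, x))` if `x` and `rot θ x` are in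
`Ω`. Then `InflowSwirl` holds at every singular point `a ∈ Ω` of the axis.

(b) Let `(u, p)` be a smooth axisymmetric solution on `(0, T) × ℝ³` with bounded energy, finite
dissipation and locally integrable pressure (`WSl`). If `u` is unbounded near the time `T` then it
has a singular point. All the singular points lie on the axis and `InflowSwirl` holds at each. -/
theorem result (ν T : ℝ) (u : ℝ → V → V) (p : ℝ → V → ℝ) (hν : 0 < ν) :
    (∀ (E : ℝ) (Ω : Set V), DSl ν T E Ω u p →
      (∀ t ∈ Ioo 0 T, ∀ (θ : ℝ), ∀ x ∈ Ω, rot θ x ∈ Ω → u t (rot θ x) = rot θ (u t x)) →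
      ∀ a ∈ Ω, a 0 = 0 → a 1 = 0 → Sing T u a → InflowSwirl ν T u a) ∧
    ∀ E : ℝ, WSl ν T E u p → (∀ t ∈ Ioo 0 T, Axi (u t)) → (Blow T u → ∃ a, Sing T u a) ∧
      ∀ a, Sing T u a → a 0 = 0 ∧ a 1 = 0 ∧ InflowSwirl ν T u a := by
  refine ⟨fun E Ω h hax a ha ha0 ha1 hs =>
    Q67.AXI.infl_D2 Q67.AXI.hMainP Q67.AXI.hTra hν h hax ha ha0 ha1 hs,
    fun E h hax => ⟨fun hB => Q85.CL.sing_whole Q95.CL.far Q285.CL.wsc hν h hB,
      fun a hs => ?_⟩⟩
  obtain ⟨h0, h1⟩ := Q67.AXI.axis_W Q67.AXI.hTra Q67.AXI.hWho Q67.AXI.hGR hν h hax hs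
  exact ⟨h0, h1, Q67.AXI.infl_D2 Q67.AXI.hMainP Q67.AXI.hTra hν (Q85.CL.whole_D h a)
    (fun t ht θ x _ _ => hax t ht θ x) (Metric.mem_ball_self (by norm_num)) h0 h1 hs⟩

end Pool.Agent.Results.MP_09540e_an.InflowAndSwirl
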