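import Pool.Agent.Q67.AXI.All2
import Pool.Agent.Q67.AXI.Fin4

/-!
Outflow, or inflow and swirl, at the singular points of axisymmetric Navier-Stokes flows.

`V` is `ℝ³` with the maximum norm, the axis of symmetry is the third coordinate axis,
`sg x = x₀² + x₁²` is the square of the distance `ρ` to the axis, `circ v = x₀ v₁ - x₁ v₀` is the
circulation `Γ = ρ v_θ`, `rad v = x₀ v₀ + x₁ v₁` is `ρ v_ρ`, and `vort v` is the curl of `v`. The
field `v` is axisymmetric (`Axi v`) if `v (rot θ x) = rot θ (v x)` for all the rotations `rot θ`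
about the axis. A point `a` is singular at the time `T` (`Sing T u a`) if `u` is unbounded in every
neighbourhood of `(T, a)`.

Near a singular point of the axis there is, at times arbitrarily close to `T`, a strong outflow
from the axis, `ρ u_ρ > (2 - μ) ν + (k / (T - t) + B(t)) ρ²`, or there are points with a circulation
`|Γ| > δ(μ, k) ν`, with `ω_ρ = 0` and `Γ ω_z > 0`, and with an inflow stronger than the one of a
sink of strength `2 ν` (up to a logarithmic correction) plus the one of a strain of the rate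
`c / (T - t) + B(t)`, for any given `c < 1 / 2`. So a bound on the outflow alone, for instance the
one-sided bound of the first type `u_ρ ≤ K √(ν / (T - t))`
(`K √ν ρ / √(T - t) ≤ ν + (K² / 4) ρ² / (T - t)`), excludes singular points if `|Γ| ≤ δ ν` near the
axis; and this is needed only where the inflow is strong.
-/

open MeasureTheory Set
open H459R3.NS Pool.Agent.W268.NS
open Pool.Agent.Q85.CL (Sing Blow DSl WSl)
open Pool.Agent.TH305.AX (sg circ rot Axi)
open Pool.Agent.Q67.AXI (rad)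

set_option autoImplicit false

namespace Pool.Agent.Results.MP_09540e_an.OutflowOrSwirl

/-- For all functions `B`, continuous and integrable on `(0, T)`, all `0 ≤ c < 1 / 2`, `α > 0`,
`T₀ < T` and `R > 0` there are a time `t` in `(T₀, T)`, `t > 0`, and a point `x` with
`‖x - a‖ ≤ R`, at the distance `ρ ∈ (0, 1)` of the axis, where
`ρ u_ρ > ν (2 - μ) + (k / (T - t) + B(t)) ρ²` or where `ρ² < (ν (T - t)) ^ (2 c)`, `|Γ| > δ ν`,
`ω_ρ = 0`, `Γ ω_z > 0` and `ρ u_ρ < ν (-2 + 2 (α + 1) / λ) - (c / (T - t) + B(t)) ρ²`, with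
`λ = log ((ν (T - t)) ^ (2 c) / ρ²)`. -/
def OutflowSwirl (ν T μ k δ : ℝ) (u : ℝ → V → V) (a : V) : Prop :=
  ∀ (B : ℝ → ℝ) (c α T₀ R : ℝ), ContinuousOn B (Ioo 0 T) → IntegrableOn B (Ioo 0 T) →
    0 ≤ c → c < 1 / 2 → 0 < α → T₀ < T → 0 < R →
      ∃ t ∈ Ioo 0 T, T₀ < t ∧ ∃ x : V, ‖x - a‖ ≤ R ∧ 0 < sg x ∧ sg x < 1 ∧
        (ν * (2 - μ) + (k / (T - t) + B t) * sg x < rad (u t) x ∨
          (sg x < (ν * (T - t)) ^ (2 * c) ∧ ν * δ < |circ (u t) x| ∧
            rad (vort (u t)) x = 0 ∧ 0 < circ (u t) x * vort (u t) x 2 ∧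
            rad (u t) x < ν * (-2 + 2 * (α + 1) / Real.log ((ν * (T - t)) ^ (2 * c) / sg x))
              - (c / (T - t) + B t) * sg x))

/-- There are numbers `δ μ k > 0`, for `0 < μ < 2` and `k ≥ 0`, such that the following holds for
all `ν > 0`.

(a) Let `(u, p)` be a smooth solution of the Navier-Stokes equations in `(0, T) × Ω`, `Ω` open,
without force and with viscosity `ν`, with finite energy, finite dissipation and integrable
pressure (`DSl`), and axisymmetric: `u(t, rot θ x) = rot θ (u(t, x))` if `x` and `rot θ x` are in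
`Ω`. Then `OutflowSwirl` holds at every singular point `a ∈ Ω` of the axis, for all `μ` and `k`.

(b) Let `(u, p)` be a smooth axisymmetric solution on `(0, T) × ℝ³` with bounded energy, finite
dissipation and locally integrable pressure (`WSl`). If `u` is unbounded near the time `T` then it
has a singular point. All the singular points lie on the axis and `OutflowSwirl` holds at each, for
all `μ` and `k`. -/
theorem result : ∃ δ : ℝ → ℝ → ℝ, (∀ μ k : ℝ, 0 < μ → μ < 2 → 0 ≤ k → 0 < δ μ k) ∧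
    ∀ (ν T : ℝ) (u : ℝ → V → V) (p : ℝ → V → ℝ), 0 < ν →
      (∀ (E : ℝ) (Ω : Set V), DSl ν T E Ω u p →
        (∀ t ∈ Ioo 0 T, ∀ (θ : ℝ), ∀ x ∈ Ω, rot θ x ∈ Ω → u t (rot θ x) = rot θ (u t x)) →
        ∀ a ∈ Ω, a 0 = 0 → a 1 = 0 → Sing T u a → ∀ μ k : ℝ, 0 < μ → μ < 2 → 0 ≤ k →
          OutflowSwirl ν T μ k (δ μ k) u a) ∧
      ∀ E : ℝ, WSl ν T E u p → (∀ t ∈ Ioo 0 T, Axi (u t)) → (Blow T u → ∃ a, Sing T u a) ∧
        ∀ a, Sing T u a → a 0 = 0 ∧ a 1 = 0 ∧ ∀ μ k : ℝ, 0 < μ → μ < 2 → 0 ≤ k →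
          OutflowSwirl ν T μ k (δ μ k) u a := by
  obtain ⟨dl, hd, hM⟩ := Q67.AXI.hMainQ
  refine ⟨fun μ k => dl μ k / 2, fun μ k h1 h2 h3 => half_pos (hd μ k h1 h2 h3),
    fun ν T u p hν => ⟨fun E Ω h hax a ha ha0 ha1 hs μ k h1 h2 h3 =>
      Q67.AXI.infl_D4 hM Q67.AXI.hTra hν h hax ha ha0 ha1 hs h1 h2 h3,
    fun E h hax => ⟨fun hB => Q85.CL.sing_whole Q95.CL.far Q285.CL.wsc hν h hB,
      fun a hs => ?_⟩⟩⟩
  obtain ⟨h0, h1⟩ := Q67.AXI.axis_W Q67.AXI.hTra Q67.AXI.hWho Q67.AXI.hGR hν h hax hs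
  exact ⟨h0, h1, fun μ k h2 h3 h4 => Q67.AXI.infl_D4 hM Q67.AXI.hTra hν (Q85.CL.whole_D h a)
    (fun t ht θ x _ _ => hax t ht θ x) (Metric.mem_ball_self (by norm_num)) h0 h1 hs h2 h3 h4⟩

end Pool.Agent.Results.MP_09540e_an.OutflowOrSwirl
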